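import Mathlib

set_option autoImplicit false

namespace Pool.Agent.Results.MP_0f9b8a_co.Oscillation

open Filter Topology Finset MvPolynomial

/-- value of the rational function `N / D` at `(d₁, d₂)` -/
noncomputable def val (N D : MvPolynomial (Fin 2) ℚ) (d₁ d₂ : ℕ) : ℝ :=
  ((eval ![(d₁ : ℚ), (d₂ : ℚ)] N / eval ![(d₁ : ℚ), (d₂ : ℚ)] D : ℚ) : ℝ)

/-- `f = N / D` is admissible -/
def Admissible (N D : MvPolynomial (Fin 2) ℚ) : Prop :=
  (∀ d₁ d₂ : ℕ, 1 ≤ d₁ → 1 ≤ d₂ → eval ![(d₁ : ℚ), (d₂ : ℚ)] D ≠ 0 ∧ 0 < val N D d₁ d₂) ∧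
  ∃ k L : ℝ, 0 < k ∧ 0 < L ∧ Tendsto (fun p : ℕ × ℕ =>
    val N D p.1 p.2 / ((p.1 * p.2 / (p.1 + p.2) : ℝ)) ^ k) (atTop ×ˢ atTop) (𝓝 L)

/-- `n` satisfies the convolution recursion -/
def Rec (N D : MvPolynomial (Fin 2) ℚ) (n : ℕ → ℝ) : Prop :=
  ∀ d, 2 ≤ d → n d = ∑ j ∈ Ico 1 d, val N D j (d - j) * n j * n (d - j)

noncomputable def Rp : MvPolynomial (Fin 2) ℚ :=
  1000000 * (X 0 - 1) ^ 2 * ((X 0 + X 1) * (X 0 + X 1 - 1)) ^ 4

noncomputable def D0 : MvPolynomial (Fin 2) ℚ :=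
  1000000 * (X 0 + X 1) * (1 + 1000000 * (X 0 - 2) ^ 2 * Rp)

noncomputable def N0 : MvPolynomial (Fin 2) ℚ :=
  2 * X 0 * X 1 * (1 + 1000000 * (X 0 - 2) ^ 2 * Rp) + 1000000 * (X 0 + X 1) * Rp

noncomputable def R (x y : ℝ) : ℝ := 1000000 * (x - 1) ^ 2 * ((x + y) * (x + y - 1)) ^ 4

noncomputable def P (x y : ℝ) : ℝ := R x y / (1 + 1000000 * (x - 2) ^ 2 * R x y)

theorem R_nonneg (x y : ℝ) : 0 ≤ R x y := by unfold R; positivity

theorem P_nonneg (x y : ℝ) : 0 ≤ P x y := by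
  have := R_nonneg x y
  unfold P; positivity

theorem P_le (a : ℕ) (y : ℝ) (h : a ≠ 2) : P a y ≤ 1 / 1000000 := by
  have h0 := R_nonneg a y
  have h1 : (1 : ℝ) ≤ ((a : ℝ) - 2) ^ 2 := by
    have : (1 : ℤ) ≤ ((a : ℤ) - 2) ^ 2 := (sq_pos_of_ne_zero (by omega) : (0 : ℤ) < _)
    exact_mod_cast this
  unfold P
  rw [div_le_iff₀ (by positivity)]
  nlinarith

theorem evalD (a b : ℕ) : ((eval ![(a : ℚ), (b : ℚ)] D0 : ℚ) : ℝ) =
    1000000 * (a + b) * (1 + 1000000 * ((a : ℝ) - 2) ^ 2 * R a b) := by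
  simp [D0, Rp, R]

theorem val_eq (a b : ℕ) (ha : 1 ≤ a) :
    val N0 D0 a b = 2 / 1000000 * (a * b / (a + b)) + P a b := by
  have h0 := R_nonneg a b
  have h1 : (1 : ℝ) ≤ a := by exact_mod_cast ha
  have : ((eval ![(a : ℚ), (b : ℚ)] N0 : ℚ) : ℝ) =
      2 * a * b * (1 + 1000000 * ((a : ℝ) - 2) ^ 2 * R a b) + 1000000 * (a + b) * R a b := by
    simp [N0, Rp, R]
  rw [val, Rat.cast_div, evalD, this, P]
  field_simp

theorem adm : Admissible N0 D0 := by
  refine ⟨fun a b ha hb => ⟨fun h => ?_, ?_⟩, 1, 2 / 1000000, one_pos, by norm_num, ?_⟩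
  · have h1 := evalD a b
    have h0 := R_nonneg a b
    rw [h] at h1
    exact absurd h1 (by push_cast; positivity)
  · have := P_nonneg a b
    rw [val_eq a b ha]
    positivity
  · have t : Tendsto (fun n : ℕ => (n : ℝ)⁻¹) atTop (𝓝 0) := tendsto_inv_atTop_nhds_zero_nat
    have t2 : Tendsto (fun p : ℕ × ℕ => 2 / 1000000 + ((p.1 : ℝ)⁻¹ + (p.2 : ℝ)⁻¹))
        (atTop ×ˢ atTop) (𝓝 (2 / 1000000)) := by
      simpa using ((t.comp tendsto_fst).add (t.comp tendsto_snd)).const_add (2 / 1000000)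
    have ev : ∀ᶠ p : ℕ × ℕ in atTop ×ˢ atTop, 3 ≤ p.1 ∧ 3 ≤ p.2 :=
      (eventually_ge_atTop 3).prod_mk (eventually_ge_atTop 3)
    have key : ∀ p : ℕ × ℕ, 3 ≤ p.1 ∧ 3 ≤ p.2 → val N0 D0 p.1 p.2 /
        ((p.1 * p.2 / (p.1 + p.2) : ℝ)) ^ (1 : ℝ) =
        2 / 1000000 + P p.1 p.2 * ((p.1 : ℝ)⁻¹ + (p.2 : ℝ)⁻¹) := by
      rintro ⟨a, b⟩ ⟨ha, hb⟩
      have h1 : (3 : ℝ) ≤ a := by exact_mod_cast ha
      have h2 : (3 : ℝ) ≤ b := by exact_mod_cast hb
      rw [Real.rpow_one, val_eq _ _ (by omega)]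
      field_simp
      ring
    refine tendsto_of_tendsto_of_tendsto_of_le_of_le' tendsto_const_nhds t2
      (ev.mono fun p hp => ?_) (ev.mono fun p hp => ?_)
    · rw [key p hp]
      have := P_nonneg p.1 p.2
      exact le_add_of_nonneg_right (by positivity)
    · rw [key p hp]
      have := P_le p.1 p.2 (by omega)
      exact add_le_add_right (mul_le_of_le_one_left (by positivity) (by linarith)) _

noncomputable def seq : ℕ → ℝ
  | 0 => 0
  | 1 => 1
  | d + 2 => ∑ j : Ico 1 (d + 2), val N0 D0 j (d + 2 - j) * seq j * seq (d + 2 - j)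
decreasing_by
  all_goals have := mem_Ico.1 j.2; omega

theorem seq_rec : Rec N0 D0 seq := by
  intro d hd
  obtain ⟨d, rfl⟩ : ∃ e, d = e + 2 := ⟨d - 2, by omega⟩
  rw [seq, Finset.sum_coe_sort (Ico 1 (d + 2))
    fun j => val N0 D0 j (d + 2 - j) * seq j * seq (d + 2 - j)]

theorem seq_two : seq 2 = 1 / 1000000 := by
  rw [seq_rec 2 le_rfl]
  simp [val_eq, P, R, seq]
  norm_num

theorem fact_le (j d : ℕ) (h1 : 1 ≤ j) (h2 : j < d) :
    (d : ℝ) * (j.factorial * (d - j).factorial) ≤ d.factorial := by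
  have h3 : d ≤ d.choose j := by
    obtain ⟨e, rfl⟩ : ∃ e, d = e + 1 := ⟨d - 1, by omega⟩
    obtain ⟨i, rfl⟩ : ∃ i, j = i + 1 := ⟨j - 1, by omega⟩
    clear h1
    induction e generalizing i with
    | zero => omega
    | succ e ih =>
      rcases i with _ | i
      · simp
      rw [Nat.choose_succ_succ']
      have := ih i (by omega)
      have := Nat.choose_pos (show i + 1 + 1 ≤ e + 1 by omega)
      omega
  have h4 := Nat.choose_mul_factorial_mul_factorial h2.le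
  have : d * (j.factorial * (d - j).factorial) ≤ d.factorial := by
    rw [← h4, mul_assoc]
    exact Nat.mul_le_mul_right _ h3
  exact_mod_cast this

theorem bound (d : ℕ) : 1 ≤ d → (if d % 2 = 1 then 1 else 0) * (d.factorial : ℝ) ^ 4 ≤ seq d ∧
    seq d ≤ ((if d % 2 = 1 then 1 else 1 / 1000000) + 12 / 1000000 * (1 - (d : ℝ)⁻¹)) *
      (d.factorial : ℝ) ^ 4 := by
  induction d using Nat.strong_induction_on with
  | _ d ih =>
    intro hd
    by_cases h1 : d = 1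
    · subst h1; simp [seq]
    by_cases h2 : d = 2
    · subst h2; rw [seq_two]; norm_num [Nat.factorial]
    have b : ∀ j, 1 ≤ j → j < d → 0 ≤ seq j ∧ seq j ≤ 2 * (j.factorial : ℝ) ^ 4 := by
      intro j j1 j2
      obtain ⟨k1, k2⟩ := ih j j2 j1
      refine ⟨le_trans (by split_ifs <;> positivity) k1, k2.trans ?_⟩
      have : (0 : ℝ) ≤ (j : ℝ)⁻¹ := by positivity
      gcongr
      split_ifs <;> linarith
    obtain ⟨e, rfl⟩ : ∃ e, d = e + 1 + 2 := ⟨d - 3, by omega⟩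
    set D : ℝ := ((e + 1 + 2 : ℕ) : ℝ) with hD
    set F : ℝ := ((e + 1 + 2).factorial : ℝ) with hF
    have hD' : D = e + 3 := by rw [hD]; push_cast; ring
    have he : (0 : ℝ) ≤ e := by positivity
    have hFF : F = D * (D - 1) * (e + 1).factorial := by
      rw [hF, hD', Nat.factorial_succ, Nat.factorial_succ]; push_cast; ring
    let g : ℕ → ℝ := fun j => 2 / 1000000 * (j * (e + 1 + 2 - j : ℕ) / (j + (e + 1 + 2 - j : ℕ))) +
      if j = 2 then 0 else P j (e + 1 + 2 - j : ℕ)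
    have hs : seq (e + 1 + 2) = ∑ j ∈ Ico 1 (e + 1 + 2), g j * seq j * seq (e + 1 + 2 - j) +
        (D * (D - 1)) ^ 4 * seq (e + 1) := by
      have : (D * (D - 1)) ^ 4 * seq (e + 1) = ∑ j ∈ Ico 1 (e + 1 + 2),
          if j = 2 then P j (e + 1 + 2 - j : ℕ) * seq j * seq (e + 1 + 2 - j) else 0 := by
        rw [Finset.sum_ite_eq', if_pos (by simp), seq_two, hD']
        simp only [P, R, Nat.add_sub_cancel]
        push_cast
        ring
      rw [seq_rec _ (by omega), this, ← Finset.sum_add_distrib]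
      refine Finset.sum_congr rfl fun j hj => ?_
      rw [val_eq _ _ (mem_Ico.1 hj).1]
      simp only [g]
      split_ifs <;> ring
    have hg : ∀ j ∈ Ico 1 (e + 1 + 2), 0 ≤ g j * seq j * seq (e + 1 + 2 - j) ∧
        g j * seq j * seq (e + 1 + 2 - j) ≤ 12 / 1000000 * F ^ 4 / D ^ 3 := by
      intro j hj
      obtain ⟨j1, j2⟩ := mem_Ico.1 hj
      obtain ⟨a1, a2⟩ := b j j1 j2
      obtain ⟨a3, a4⟩ := b (e + 1 + 2 - j) (by omega) (by omega)
      have a5 := fact_le j _ j1 j2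
      have a6 : (j : ℝ) + (e + 1 + 2 - j : ℕ) = D := by
        rw [hD, ← Nat.cast_add, Nat.add_sub_cancel' j2.le]
      have a7 := P_nonneg j (e + 1 + 2 - j : ℕ)
      have g0 : 0 ≤ g j := by simp only [g]; split_ifs <;> positivity
      have g1 : g j ≤ 3 / 1000000 * D := by
        have u : (j : ℝ) * (e + 1 + 2 - j : ℕ) / (j + (e + 1 + 2 - j : ℕ)) ≤ D := by
          rw [div_le_iff₀ (by rw [a6]; linarith), ← a6]
          nlinarith [Nat.cast_nonneg (α := ℝ) j, Nat.cast_nonneg (α := ℝ) (e + 1 + 2 - j)]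
        simp only [g]
        split_ifs with h
        · linarith
        · linarith [P_le j (e + 1 + 2 - j : ℕ) h]
      refine ⟨by positivity, ?_⟩
      rw [le_div_iff₀ (by rw [hD']; positivity)]
      calc _ ≤ 3 / 1000000 * D * (2 * (j.factorial : ℝ) ^ 4) *
            (2 * ((e + 1 + 2 - j).factorial : ℝ) ^ 4) * D ^ 3 := by gcongr
        _ = 12 / 1000000 * (D * (j.factorial * (e + 1 + 2 - j).factorial)) ^ 4 := by ring
        _ ≤ _ := by gcongr
    have s0 := Finset.sum_nonneg fun j hj => (hg j hj).1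
    have s1 := Finset.sum_le_card_nsmul _ _ _ fun j hj => (hg j hj).2
    obtain ⟨k1, k2⟩ := ih (e + 1) (by omega) (by omega)
    have k0 : (0 : ℝ) ≤ (D * (D - 1)) ^ 4 := by positivity
    have k3 := mul_le_mul_of_nonneg_left k1 k0
    have k4 := mul_le_mul_of_nonneg_left k2 k0
    have hF4 : F ^ 4 = (D * (D - 1)) ^ 4 * ((e + 1).factorial : ℝ) ^ 4 := by rw [hFF]; ring
    have hm : (e + 1 + 2) % 2 = (e + 1) % 2 := by omega
    rw [hs, hm]
    refine ⟨by rw [hF4]; linarith, ?_⟩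
    have k5 : ((e : ℝ) + 2) / D ^ 3 ≤ ((e : ℝ) + 1)⁻¹ - D⁻¹ := by
      rw [hD', div_le_iff₀ (by positivity)]
      field_simp
      nlinarith
    have k6 := mul_le_mul_of_nonneg_left k5 (by positivity : (0 : ℝ) ≤ 12 / 1000000 * F ^ 4)
    simp only [Nat.card_Ico, nsmul_eq_mul] at s1
    push_cast at s1 k4
    rw [mul_left_comm, ← hF4] at k4
    have k7 : ((e : ℝ) + 2) * (12 / 1000000 * F ^ 4 / D ^ 3) =
      12 / 1000000 * F ^ 4 * ((e + 2) / D ^ 3) := by ring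
    nlinarith

theorem result : ∃ (N D : MvPolynomial (Fin 2) ℚ) (n : ℕ → ℝ), Admissible N D ∧ 0 < n 1 ∧
    Rec N D n ∧ ∀ d₀ : ℕ, ∃ d ≥ d₀, 1 ≤ d ∧
      n (d + 1) ^ (1 / ((d : ℝ) + 1)) < n d ^ (1 / (d : ℝ)) := by
  refine ⟨N0, D0, seq, adm, by simp [seq], seq_rec, fun d₀ => ⟨2 * d₀ + 1, by omega, by omega, ?_⟩⟩
  have h1 := (bound (2 * d₀ + 1) (by omega)).1
  have h2 := bound (2 * d₀ + 1 + 1) (by omega)
  rw [if_pos (by omega), one_mul] at h1
  rw [if_neg (by omega), if_neg (by omega), zero_mul] at h2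
  have hd : 1 ≤ 2 * d₀ + 1 := by omega
  generalize 2 * d₀ + 1 = d at *
  have hd' : (1 : ℝ) ≤ d := by exact_mod_cast hd
  have f0 : (0 : ℝ) < d.factorial := by exact_mod_cast d.factorial_pos
  have h3 : seq (d + 1) ≤ (1 / 10 * ((d + 1) * d.factorial)) ^ 4 := by
    refine h2.2.trans ?_
    rw [mul_pow, Nat.factorial_succ]
    push_cast
    have : (0 : ℝ) ≤ ((d : ℝ) + 1)⁻¹ := by positivity
    gcongr
    linarith
  have h4 : (1 / 10 * ((d : ℝ) + 1)) ^ d < d.factorial := by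
    have a1 := Real.pow_div_factorial_le_exp ((d : ℝ) + 1) (by positivity) d
    have a2 : Real.exp (d + 1) < 10 ^ d := by
      calc Real.exp (d + 1) ≤ Real.exp (d * 2) := Real.exp_le_exp.2 (by linarith)
        _ = (Real.exp 1 ^ 2) ^ d := by rw [← Real.exp_nat_mul, ← Real.exp_nat_mul]; norm_num
        _ < 10 ^ d := by
          have := Real.exp_one_lt_d9
          have := Real.exp_pos 1
          exact pow_lt_pow_left₀ (by nlinarith) (by positivity) (by omega)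
    rw [div_le_iff₀ f0] at a1
    rw [mul_pow, one_div, inv_pow, inv_mul_lt_iff₀ (by positivity)]
    exact a1.trans_lt (by gcongr)
  have h5 : seq (d + 1) ^ d < seq d ^ (d + 1) := by
    calc seq (d + 1) ^ d ≤ ((1 / 10 * ((d + 1) * d.factorial)) ^ 4) ^ d :=
          pow_le_pow_left₀ h2.1 h3 d
      _ = ((1 / 10 * ((d : ℝ) + 1)) ^ d) ^ 4 * (d.factorial ^ 4) ^ d := by
          rw [← mul_assoc, mul_pow, mul_pow, ← pow_mul, ← pow_mul, ← pow_mul, mul_comm 4 d]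
      _ < d.factorial ^ 4 * (d.factorial ^ 4) ^ d := by gcongr
      _ = (d.factorial ^ 4) ^ (d + 1) := by ring
      _ ≤ _ := by gcongr
  have h6 : 0 ≤ seq d := le_trans (by positivity) h1
  refine lt_of_pow_lt_pow_left₀ (d * (d + 1)) (by positivity) ?_
  rw [← Real.rpow_natCast, ← Real.rpow_natCast, ← Real.rpow_mul h2.1, ← Real.rpow_mul h6]
  rw [show 1 / ((d : ℝ) + 1) * ((d * (d + 1) : ℕ) : ℝ) = (d : ℕ) by push_cast; field_simp,
    show 1 / (d : ℝ) * ((d * (d + 1) : ℕ) : ℝ) = ((d + 1 : ℕ) : ℝ) by push_cast; field_simp,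
    Real.rpow_natCast, Real.rpow_natCast]
  exact h5

end Pool.Agent.Results.MP_0f9b8a_co.Oscillation
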